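import Pool.Agent.SSF.StmtsB

/-!
# Squad SSF, row EFF: the group that acts effectively is metrizable
-/

set_option autoImplicit false

open Set Topology

namespace Pool.Agent.SSF.H45

open Pool.Agent.LSG Pool.Agent.LPR Pool.Agent.SSF Pool.Agent.CMG

theorem eff : EffStmt := by
  intro G X _ _ _ _ _ _ _ _ _ htr
  let N : Subgroup G := (MulAction.toPermHom G X).ker
  let f : G ⧸ N →* Equiv.Perm X := QuotientGroup.kerLift (MulAction.toPermHom G X)
  letI act : MulAction (G ⧸ N) X := MulAction.compHom X f
  have hact : ∀ (g : G) (x : X), ((g : G ⧸ N)) • x = g • x := fun g x => rfl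
  have hcs : ContinuousSMul (G ⧸ N) X := ⟨by
    have h1 : IsOpenQuotientMap (Prod.map (QuotientGroup.mk : G → G ⧸ N) (id : X → X)) :=
      QuotientGroup.isOpenQuotientMap_mk.prodMap IsOpenQuotientMap.id
    rw [h1.isQuotientMap.continuous_iff]
    have h2 : (fun p : (G ⧸ N) × X => p.1 • p.2) ∘
        Prod.map (QuotientGroup.mk : G → G ⧸ N) (id : X → X) = fun p : G × X => p.1 • p.2 :=
      funext fun p => hact p.1 p.2
    rw [h2]
    exact continuous_smul⟩
  have heff : ∀ q : G ⧸ N, (∀ x : X, q • x = x) → q = 1 := by
    intro q hq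
    obtain ⟨g, rfl⟩ := QuotientGroup.mk_surjective q
    rw [QuotientGroup.eq_one_iff]
    show g ∈ (MulAction.toPermHom G X).ker
    rw [MonoidHom.mem_ker]
    refine Equiv.ext fun x => ?_
    exact hq x
  letI := TopologicalSpace.metrizableSpaceMetric X
  haveI : SecondCountableTopology X := inferInstance
  obtain ⟨D, hDc, hDd⟩ := TopologicalSpace.exists_countable_dense X
  haveI : Countable D := hDc.to_subtype
  let j : G ⧸ N → (D → X) := fun q d => q • (d : X)
  have hsm : Continuous fun p : (G ⧸ N) × X => p.1 • p.2 := hcs.continuous_smul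
  have hc : ∀ q : G ⧸ N, Continuous fun x : X => q • x := fun q =>
    hsm.comp (continuous_const.prodMk continuous_id)
  have hj : Continuous j := continuous_pi fun d =>
    hsm.comp (continuous_id.prodMk continuous_const)
  have hji : Function.Injective j := by
    intro q q' h
    have h1 : ∀ x : X, q • x = q' • x := by
      intro x
      have h2 : (fun x : X => q • x) = fun x : X => q' • x := by
        refine Continuous.ext_on hDd (hc q) (hc q') fun d hd => ?_
        exact congrFun h ⟨d, hd⟩
      exact congrFun h2 x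
    have h3 : q'⁻¹ * q = 1 := heff _ fun x => by
      rw [mul_smul, h1, inv_smul_smul]
    exact (inv_mul_eq_one.1 h3).symm
  haveI : T2Space (G ⧸ N) := T2Space.of_injective_continuous hji hj
  haveI : SecondCountableTopology (G ⧸ N) :=
    (hj.isClosedEmbedding hji).isEmbedding.secondCountableTopology
  have hmet : TopologicalSpace.MetrizableSpace (G ⧸ N) :=
    TopologicalSpace.metrizableSpace_of_t3_secondCountable (G ⧸ N)
  refine ⟨G ⧸ N, inferInstance, inferInstance, inferInstance, inferInstance, hmet, act, hcs, heff,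
    fun x y => ?_⟩
  obtain ⟨g, hg⟩ := htr x y
  exact ⟨(g : G ⧸ N), hg⟩

end Pool.Agent.SSF.H45
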