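import Pool.Agent.SSF.Stmts

/-!
# Squad SSF, row IMM: the embedding
-/

set_option autoImplicit false

open Set Topology
open scoped BigOperators

namespace Pool.Agent.SSF.H45

open Pool.Agent.LSG Pool.Agent.LPR Pool.Agent.SSF

theorem avg_lt {M : Type} (ν : M →₀ ℝ) (h0 : ∀ a, 0 ≤ ν a) (h1 : ν.sum (fun _ r => r) = 1)
    (g : M → ℝ) (ε : ℝ) (hg : ∀ a, ν a ≠ 0 → |g a| < ε) :
    |ν.sum fun a r => r * g a| < ε := by
  unfold Finsupp.sum at h1 ⊢
  have hne : ν.support.Nonempty := by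
    rw [Finset.nonempty_iff_ne_empty]
    intro h
    rw [h, Finset.sum_empty] at h1
    exact zero_ne_one h1
  calc |∑ a ∈ ν.support, ν a * g a| ≤ ∑ a ∈ ν.support, |ν a * g a| :=
        Finset.abs_sum_le_sum_abs _ _
    _ < ∑ a ∈ ν.support, ν a * ε := by
        refine Finset.sum_lt_sum_of_nonempty hne fun a ha => ?_
        have ha0 : ν a ≠ 0 := Finsupp.mem_support_iff.1 ha
        rw [abs_mul, abs_of_nonneg (h0 a)]
        exact mul_lt_mul_of_pos_left (hg a ha0) (lt_of_le_of_ne (h0 a) (Ne.symm ha0))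
    _ = ε := by rw [← Finset.sum_mul, h1, one_mul]

theorem imm (gmc : GmcStmt) (unm : UnmStmt) : ImmStmt := by
  classical
  intro S M _ _ _ O ρ χ ψ K c p η w θ ν hP hL hC hW F hF
  obtain ⟨hFc, hF0, hF1⟩ := hF
  obtain ⟨hU1, hU2⟩ := unm S M O ρ χ ψ K c p η w θ hP hL hC
  have hG := fun m k => gmc S M (p m k) (η m k) ((1 / 2 : ℝ) ^ (m + 6)) (ψ m k) F
    (hL.cont m k) (hL.inj m k) (hL.ne m k) (hL.conv m k) (hP.psi01 m k) hFc hF1
  let R : ℕ × ℕ → S × M → ℝ := fun α x =>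
    (ν α.1 α.2 x.2).sum fun a r => r * Gm (η α.1 α.2) (ψ α.1 α.2) F (x.1, a)
  let T : ℕ × ℕ → S × M → ℝ := fun α x => θ α.1 (ρ x) * w α.1 α.2 x.2 * R α x
  have himap : ∀ x, im θ ρ ψ η w ν F x = ∑ᶠ α, T α x := fun x => rfl
  have hTc : ∀ α, Continuous (T α) := by
    intro α
    have h1 : Continuous fun x : S × M => θ α.1 (ρ x) := (θ α.1).continuous.comp ρ.continuous
    have h2 : Continuous fun x : S × M => w α.1 α.2 x.2 :=
      (w α.1 α.2).continuous.comp continuous_snd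
    have h3 : Continuous (R α) := hW.cont α.1 α.2 S (Gm (η α.1 α.2) (ψ α.1 α.2) F)
      (hG α.1 α.2).2.2.2
    exact (h1.mul h2).mul h3
  have hTR : ∀ α x, |T α x| ≤ |R α x| := by
    intro α x
    have t1 := hC.bd α.1 (ρ x)
    have w1 := hL.w01 α.1 α.2 x.2
    have r0 := abs_nonneg (R α x)
    show |θ α.1 (ρ x) * w α.1 α.2 x.2 * R α x| ≤ _
    rw [abs_mul, abs_mul, abs_of_nonneg t1.1, abs_of_nonneg w1.1]
    calc θ α.1 (ρ x) * w α.1 α.2 x.2 * |R α x| ≤ 1 * 1 * |R α x| :=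
          mul_le_mul_of_nonneg_right (mul_le_mul t1.2 w1.2 w1.1 zero_le_one) r0
      _ = |R α x| := by rw [one_mul, one_mul]
  have hT3 : ∀ α x, T α x ≠ 0 → θ α.1 (ρ x) ≠ 0 ∧ w α.1 α.2 x.2 ≠ 0 := fun α x hx =>
    ⟨left_ne_zero_of_mul (left_ne_zero_of_mul hx), right_ne_zero_of_mul (left_ne_zero_of_mul hx)⟩
  have hT1 : ∀ x α β, T α x ≠ 0 → T β x ≠ 0 → α = β := by
    intro x α β hα hβ
    obtain ⟨e1, e2⟩ := hU1 x α.1 α.2 β.1 β.2 (left_ne_zero_of_mul hα) (left_ne_zero_of_mul hβ)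
    exact Prod.ext e1 e2
  have hoff : ∀ x, x ∉ O → ∀ α, T α x = 0 := by
    intro x hx α
    by_contra hne
    obtain ⟨g2, -⟩ := hC.supp _ _ (hT3 α x hne).1
    have h0 : ρ x = 0 := by
      by_contra h1
      exact hx ((hP.zero x).1 h1)
    rw [h0] at g2
    exact absurd g2 (not_lt.2 (by positivity))
  have hUC : ∀ x₀ : S × M, ∀ ε : ℝ, 0 < ε → ∃ Fs : Finset (ℕ × ℕ),
      ∀ᶠ x in 𝓝 x₀, ∀ α, α ∉ Fs → |T α x| < ε := by
    intro x₀ ε hε
    by_cases hx : x₀ ∈ O
    · have hr : 0 < ρ x₀ := lt_of_le_of_ne (hP.nonneg x₀) (Ne.symm ((hP.zero x₀).2 hx))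
      obtain ⟨N, hN⟩ := exists_pow_lt_of_lt_one (show (0 : ℝ) < ρ x₀ / 32 by positivity)
        (show (1 / 2 : ℝ) < 1 by norm_num)
      refine ⟨Finset.range N ×ˢ Finset.range ((Finset.range N).sup K), ?_⟩
      have e2 : ∀ᶠ x in 𝓝 x₀, ρ x₀ / 2 < ρ x :=
        ρ.continuous.continuousAt.eventually (lt_mem_nhds (by linarith))
      filter_upwards [e2] with x hx2
      intro α hα
      by_cases hz : T α x = 0
      · rw [hz, abs_zero]
        exact hε
      · exfalso
        obtain ⟨g1, g2⟩ := hT3 α x hz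
        obtain ⟨-, g3⟩ := hC.supp _ _ g1
        obtain ⟨g4, -⟩ := hL.supp _ _ _ g2
        have hm : α.1 < N := by
          by_contra hcon
          have h5 : (1 / 2 : ℝ) ^ α.1 ≤ (1 / 2 : ℝ) ^ N :=
            pow_le_pow_of_le_one (by norm_num) (by norm_num) (not_lt.1 hcon)
          linarith
        apply hα
        rw [Finset.mem_product, Finset.mem_range, Finset.mem_range]
        exact ⟨hm, lt_of_lt_of_le g4 (Finset.le_sup (f := K) (Finset.mem_range.2 hm))⟩
    · refine ⟨∅, ?_⟩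
      have hρ0 : ρ x₀ = 0 := by
        by_contra hne
        exact hx ((hP.zero x₀).1 hne)
      have h1 : ∀ᶠ y in 𝓝 x₀, ∀ n ∈ (Set.univ : Set (OnePoint ℕ)), |F (y, n)| < ε := by
        refine isCompact_univ.eventually_forall_of_forall_eventually (fun n _ => ?_)
        have hc : Continuous fun y : (S × M) × OnePoint ℕ => |F (y.1, y.2)| :=
          continuous_abs.comp hFc
        have h0 : |F (x₀, n)| < ε := by
          rw [hF0 x₀ hx n, abs_zero]
          exact hε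
        exact hc.continuousAt.eventually (gt_mem_nhds h0)
      obtain ⟨A, hA, B, hB, hAB⟩ := mem_nhds_prod_iff.1 h1
      obtain ⟨δ, hδ, hδB⟩ := Metric.mem_nhds_iff.1 hB
      have e1 : ∀ᶠ x in 𝓝 x₀, x.1 ∈ A := continuous_fst.continuousAt.eventually hA
      have e2 : ∀ᶠ x in 𝓝 x₀, ρ x < δ / 2 :=
        ρ.continuous.continuousAt.eventually (gt_mem_nhds (by rw [hρ0]; positivity))
      have e3 : ∀ᶠ x in 𝓝 x₀, dist x.2 x₀.2 < δ / 2 :=
        (continuous_snd.continuousAt (x := x₀)).eventually (Metric.ball_mem_nhds _ (by positivity))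
      filter_upwards [e1, e2, e3] with x hx1 hx2 hx3
      intro α _
      by_cases hz : T α x = 0
      · rw [hz, abs_zero]
        exact hε
      · obtain ⟨g1, g2⟩ := hT3 α x hz
        obtain ⟨g3, -⟩ := hC.supp _ _ g1
        refine lt_of_le_of_lt (hTR α x) (avg_lt _ (hW.nonneg α.1 α.2 x.2) (hW.sum α.1 α.2 x.2)
          (fun a => Gm (η α.1 α.2) (ψ α.1 α.2) F (x.1, a)) ε fun a ha => ?_)
        rcases hW.supp α.1 α.2 x.2 a ha with h4 | ⟨n, u, h4⟩
        · rw [h4, (hG α.1 α.2).2.1, abs_zero]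
          exact hε
        · rw [← h4, (hG α.1 α.2).1]
          by_cases hψ : ψ α.1 α.2 (x.1, u) = 0
          · rw [hψ, zero_mul, abs_zero]
            exact hε
          · obtain ⟨g5, -⟩ := hU2 x.1 x.2 u α.1 α.2 g2 hψ
            have h6 : dist u x₀.2 < δ := by
              have h7 : dist u x.2 < δ / 2 := by
                rw [dist_comm]
                linarith
              have h8 := dist_triangle u x.2 x₀.2
              linarith
            have h9 : (x.1, u) ∈ A ×ˢ B := ⟨hx1, hδB h6⟩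
            have h10 : |F ((x.1, u), ((n : ℕ) : OnePoint ℕ))| < ε := hAB h9 _ (Set.mem_univ _)
            have h11 := hP.psi01 α.1 α.2 (x.1, u)
            rw [abs_mul, abs_of_nonneg h11.1]
            calc ψ α.1 α.2 (x.1, u) * |F ((x.1, u), ((n : ℕ) : OnePoint ℕ))|
                ≤ 1 * |F ((x.1, u), ((n : ℕ) : OnePoint ℕ))| :=
                  mul_le_mul_of_nonneg_right h11.2 (abs_nonneg _)
              _ < ε := by rw [one_mul]; exact h10
  have happ : ∀ (x : S × M) (Fs : Finset (ℕ × ℕ)) (ε : ℝ), 0 < ε →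
      (∀ α, α ∉ Fs → |T α x| < ε) → |im θ ρ ψ η w ν F x - ∑ α ∈ Fs, T α x| < ε := by
    intro x Fs ε hε hx
    rw [himap]
    by_cases hsub : ∀ α, T α x ≠ 0 → α ∈ Fs
    · rw [finsum_eq_sum_of_support_subset _ (s := Fs) (fun α hα => hsub α hα), sub_self, abs_zero]
      exact hε
    · push Not at hsub
      obtain ⟨β, hβ, hβF⟩ := hsub
      have h1 : ∑ᶠ α, T α x = T β x := finsum_eq_single _ β (fun α hα => by
        by_contra hne
        exact hα (hT1 x α β hne hβ))
      have h2 : ∑ α ∈ Fs, T α x = 0 := Finset.sum_eq_zero (fun α hα => by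
        by_contra hne
        exact hβF (hT1 x α β hne hβ ▸ hα))
      rw [h1, h2, sub_zero]
      exact hx β hβF
  refine ⟨?_, ?_⟩
  · refine continuous_iff_continuousAt.2 fun x₀ => Metric.tendsto_nhds.2 fun ε hε => ?_
    obtain ⟨Fs, hFs⟩ := hUC x₀ (ε / 3) (by positivity)
    have hg : Continuous fun x => ∑ α ∈ Fs, T α x := continuous_finsetSum _ fun α _ => hTc α
    have hg' := Metric.tendsto_nhds.1 (hg.continuousAt (x := x₀)) (ε / 3) (by positivity)
    have h3 := happ x₀ Fs (ε / 3) (by positivity) hFs.self_of_nhds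
    filter_upwards [hFs, hg'] with x h1 h2
    have h4 := happ x Fs (ε / 3) (by positivity) h1
    rw [Real.dist_eq] at h2 ⊢
    rw [abs_lt] at h2 h3 h4 ⊢
    constructor <;> linarith [h2.1, h2.2, h3.1, h3.2, h4.1, h4.2]
  · intro x hx
    show im θ ρ ψ η w ν F x = 0
    rw [himap]
    have h1 : ∀ α, T α x = 0 := hoff x hx
    rw [finsum_congr h1, finsum_zero]

end Pool.Agent.SSF.H45
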